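import Pool.Agent.Lib.MP_ef05c8_mp.Osc

open MeasureTheory Pool.Agent.Lib.MP_ef05c8_mp

namespace Pool.Agent.Results.MP_ef05c8_mp.AllDensities

/-- A bounded continuous even potential of positive type for which the Medium Equation has no
solution at any mass and any density. -/
theorem result (d : ℕ) (hd : 1 ≤ d) : ∃ v : Sp d → ℝ, Admissible v ∧ Continuous v ∧
    (∀ x, v (-x) = v x) ∧ (∀ x, v x ≤ 4) ∧
    (∀ k : Sp d, 0 < ∫ x, v x * Real.cos (inner ℝ k x)) ∧
    ∀ m ρ : ℝ, 0 < m → 0 < ρ → ¬ ∃ u : Sp d → ℝ, IsMediumSolution m ρ v u :=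
  exists_osc hd

end Pool.Agent.Results.MP_ef05c8_mp.AllDensities
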