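import Pool.Agent.Lib.MP_ef05c8_mp.Big2

open MeasureTheory Pool.Agent.Lib.MP_ef05c8_mp

namespace Pool.Agent.Results.MP_ef05c8_mp.Big

/-- Negative answer to Q2 in every dimension: the Big Equation has no solution at high density
for weak, even, bounded, heavy-tailed potentials (all of them when `d ≥ 2`), and there is a
continuous radial potential of this kind. -/
theorem result (d : ℕ) (hd : 1 ≤ d) (m : ℝ) (hm : 0 < m) :
    (∀ v : Sp d → ℝ, Admissible v → (∀ x, v (-x) = v x) →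
      (∃ V : ℝ, ∀ x, v x ≤ V ∧ ‖x‖ ^ 2 * v x ≤ V) → (¬ Integrable fun x => ‖x‖ ^ 2 * v x) →
      (2 ≤ d ∨ (∃ k : Sp d, ∫ x, v x * Real.cos (inner ℝ k x) ≤ 0) ∨
        ∃ k : Sp d, 4 * ∫ x, v x * Real.cos (inner ℝ ((2 : ℝ) • k) x) <
          ∫ x, v x * Real.cos (inner ℝ k x)) →
      ∃ θ₀ : ℝ, 0 < θ₀ ∧ ∀ θ : ℝ, 0 < θ → θ ≤ θ₀ → ∃ ρ₀ : ℝ, 0 < ρ₀ ∧ ∀ ρ : ℝ, ρ₀ ≤ ρ →
        ¬ ∃ u : Sp d → ℝ, IsBigSolution m ρ (fun x => θ * v x) u) ∧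
    (∃ v : Sp d → ℝ, Admissible v ∧ Continuous v ∧ (∀ x y, ‖x‖ = ‖y‖ → v x = v y) ∧
      ∃ ρ₀ : ℝ, 0 < ρ₀ ∧ ∀ ρ : ℝ, ρ₀ ≤ ρ → ¬ ∃ u : Sp d → ℝ, IsBigSolution m ρ v u) := by
  refine ⟨fun v hv he ⟨V, hV⟩ hn h => ?_, ?_⟩
  · obtain ⟨k, hk⟩ := hv.drop (by
      rcases h with h | h | h
      exacts [.inr (.inr (.inl ⟨h, V, fun x => (hV x).1⟩)), .inl h, .inr (.inl h)])
    exact big_none hd hm hv.2.2.1 hv.1 he (fun x => (hV x).1) (fun x => (hV x).2) hn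
      hv.integral_pos hk
  obtain ⟨v, hv, hc, h0, hr, ⟨V, hV⟩, hn, k, hk⟩ := exists_heavy_potential hd
  obtain ⟨θ, hθ, H⟩ := big_no_solution hd hm hv h0 (fun x => hr _ _ (norm_neg x))
    (fun x => (hV x).1) (fun x => (hV x).2) hn (k := k) (by rwa [← ft_re hv])
  refine ⟨fun x => θ * v x, admissible_of (hv.const_mul θ) (fun x => mul_nonneg hθ.le (h0 x))
    (fun x => mul_le_mul_of_nonneg_left (hV x).1 hθ.le) (k := k) ?_, continuous_const.mul hc,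
    fun x y hxy => by simp only [hr x y hxy], H θ hθ le_rfl⟩
  rw [ft_const_mul, Complex.re_ofReal_mul]
  exact mul_neg_of_pos_of_neg hθ hk

end Pool.Agent.Results.MP_ef05c8_mp.Big
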