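import Pool.Agent.Lib.MP_ef05c8_mp.Medium2

open MeasureTheory Pool.Agent.Lib.MP_ef05c8_mp

namespace Pool.Agent.Results.MP_ef05c8_mp.Medium

/-- Negative answer to Q1 in every dimension: the Medium Equation has no solution at high
density for every bounded even potential when `d ≥ 2`, for every even potential when `d ≥ 4`, and
in every dimension when the transform of the potential vanishes somewhere or drops by more than a
factor four on doubling a frequency; the Gaussian is such a potential. -/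
theorem result (d : ℕ) (hd : 1 ≤ d) (m : ℝ) (hm : 0 < m) :
    (∀ v : Sp d → ℝ, Admissible v → (∀ x, v (-x) = v x) →
      ((∃ k : Sp d, ∫ x, v x * Real.cos (inner ℝ k x) ≤ 0) ∨
        (∃ k : Sp d, 4 * ∫ x, v x * Real.cos (inner ℝ ((2 : ℝ) • k) x) <
          ∫ x, v x * Real.cos (inner ℝ k x)) ∨
        (2 ≤ d ∧ ∃ V : ℝ, ∀ x, v x ≤ V) ∨
        (∃ p : ℝ, 1 < p ∧ (d : ℝ) < (d - 2) * p ∧ MemLp v (ENNReal.ofReal p)) ∨ 4 ≤ d) →
      ∃ ρ₀ : ℝ, 0 < ρ₀ ∧ ∀ ρ : ℝ, ρ₀ ≤ ρ → ¬ ∃ u : Sp d → ℝ, IsMediumSolution m ρ v u) ∧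
    (Admissible (fun x : Sp d => Real.exp (-‖x‖ ^ 2)) ∧
      ∃ ρ₀ : ℝ, 0 < ρ₀ ∧ ∀ ρ : ℝ, ρ₀ ≤ ρ → ¬ ∃ u : Sp d → ℝ,
        IsMediumSolution m ρ (fun x : Sp d => Real.exp (-‖x‖ ^ 2)) u) := by
  refine ⟨fun v hv he h => ?_, gauss_admissible, ?_⟩
  · obtain ⟨k, hk⟩ := hv.drop h
    exact medium_none hm hv.2.2.1 hv.1 he hv.integral_pos hk
  · obtain ⟨k, hk⟩ := gauss_drop hd
    exact medium_none hm integrable_gauss_one (fun x => (Real.exp_pos _).le) (fun x => by simp)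
      gauss_admissible.integral_pos hk

end Pool.Agent.Results.MP_ef05c8_mp.Medium
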